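import Mathlib
import Pool.Agent.Lib.MP_ee7726_lc.Model
import Pool.Agent.Lib.MP_ee7726_lc.Final

open Pool.Agent.Lib.MP_ee7726_lc

/-- A deterministic online algorithm, polynomial time per trial, whose number of mistakes is at
most `C n^(9/28) (log n + 1)^5` times that of any disjunction, plus a polynomial in `n`. -/
theorem Pool.Agent.Results.MP_ee7726_lc.OnlineRatio.result :
    ∃ A : OnlineAlg, A.PolyTimePerTrial ∧ ∃ (C : ℝ) (q : Polynomial ℕ),
      ∀ (n : ℕ), 1 ≤ n → ∀ (s : List ((Fin n → Bool) × Bool)) (S : Finset (Fin n)),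
        (A.mistakes s : ℝ) ≤
          C * (n : ℝ) ^ (9 / 28 : ℝ) * (Real.log n + 1) ^ 5 * disjMistakes S s
            + (q.eval n : ℕ) :=
  main
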