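import Pool.Agent.Lib.MP_ee7726_lc.AC.Rec
import Pool.Agent.Lib.MP_ee7726_lc.AC.Num

/-! Laws whose low-degree parities have small bias fool circuits of bounded depth. -/

namespace Pool.Agent.Results.MP_ee7726_lc.SmallBiasAC0

open Finset Pool.Agent.Lib.MP_ee7726_lc.SB

theorem result : ∃ C : ℝ, ∀ (n m d k : ℕ) (ε : ℝ) (lev : Fin m → ℕ)
    (E : Fin m → (Fin n → Bool) → Bool) (D : (Fin n → Bool) → ℝ),
    2 ≤ m → 1 ≤ d → 0 < ε → ε ≤ 1 → (∀ v, lev v ≤ d) →
    (∀ v, (∃ i, lev v = 0 ∧ ∀ x, E v x = x i) ∨ ∃ (Γ : Finset (Fin m × Bool)) (c : Bool),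
      (∀ q ∈ Γ, lev q.1 < lev v) ∧ ∀ x, E v x = c ↔ ∀ q ∈ Γ, E q.1 x = q.2) →
    C * (C * Real.log m) ^ (d - 1) * (d * Real.log m + Real.log (1 / ε)) ≤ k →
    (∀ x, 0 ≤ D x) → ∑ x, D x = 1 →
    (∀ S : Finset (Fin n), S.Nonempty → S.card ≤ k →
      |∑ x, D x * ∏ v ∈ S, (if x v = true then (-1 : ℝ) else 1)| ≤
        1 / (C * Real.log m) ^ (d * k)) →
    ∀ v, |(∑ x, if E v x = true then D x else 0) -
      ∑ x, if E v x = true then (1 : ℝ) / 2 ^ n else 0| ≤ ε := by
  refine ⟨400000, fun n m d k ε lev E D hm hd h0 h1 hlev hE hk p0 p1 p2 v => ?_⟩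
  have hm' : (2 : ℝ) ≤ m := by exact_mod_cast hm
  have l2 := Real.log_two_gt_d9
  have a1 : Real.log 2 ≤ Real.log m := Real.log_le_log (by norm_num) hm'
  have hl1 : 1 ≤ Nat.clog 2 m := Nat.clog_pos one_lt_two hm
  have hl : (Nat.clog 2 m : ℝ) ≤ 3 * Real.log m := by
    have b1 : ((2 ^ (Nat.clog 2 m - 1) : ℕ) : ℝ) ≤ m := by
      exact_mod_cast (Nat.pow_pred_clog_lt_self one_lt_two hm).le
    have b2 := Real.log_le_log (by positivity) b1
    rw [Nat.cast_pow, Real.log_pow, Nat.cast_sub hl1] at b2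
    push_cast at b2
    nlinarith
  have hN : Fintype.card (Fin m) ≤ 4 ^ Nat.clog 2 m := by
    rw [Fintype.card_fin]
    exact (Nat.le_pow_clog one_lt_two m).trans (Nat.pow_le_pow_left (by norm_num) _)
  obtain ⟨n1, n2⟩ := numer (K := k / 2) hm hd h0 h1 hl1 hl (by omega) (by omega) hk
  have hB : Biased D (2 * (k / 2)) (1 / (400000 * Real.log m) ^ (d * k)) :=
    ⟨p0, p1, fun S hS hc => p2 S hS (by omega)⟩
  have hδ : (0 : ℝ) ≤ 1 / (400000 * Real.log m) ^ (d * k) := by positivity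
  have key : ∀ b, ∑ x, D x * (if E v x = b then 1 else 0) ≤
      ∑ x, unif x * (if E v x = b then 1 else 0) + ε := fun b => by
    have h := upper_ac hB hδ hE hlev hd hl1 hN (η := ε / 4) (by positivity) v b
    have h2 : ∑ x, unif x * (if E v x = b then 1 else 0) ≤ 1 :=
      (Ex_mono fun x => by split_ifs <;> simp).trans_eq (Ex_const 1)
    rw [Fintype.card_fin, mul_add (((2 * m : ℝ) ^ 2) ^ (d + 1)), mul_add (1 + 1 / (ε / 4))] at h
    generalize 1 / (400000 * Real.log m) ^ (d * k) *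
      (2 ^ (d + 1) * (192 * (192 * (Nat.clog 2 m : ℝ)) ^ d) ^ (k / 2)) ^ 2 = X at h n2 hδ
    have h3 : (1 + ε / 4) * X ≤ ε / 4 := by
      rcases le_total X 0 with hX | hX
      · nlinarith
      · refine le_trans (mul_le_mul ?_ (le_mul_of_one_le_left hX
          (one_le_pow₀ (one_le_pow₀ (by linarith)))) hX (by positivity)) n2
        have : 1 ≤ 1 / (ε / 4) := one_le_one_div (by positivity) (by linarith)
        linarith
    nlinarith
  have tot : ∀ p : (Fin n → Bool) → ℝ, ∑ x, p x = 1 → ∑ x, p x * (if E v x = true then 1 else 0) +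
      ∑ x, p x * (if E v x = false then 1 else 0) = 1 := fun p hp => by
    rw [← sum_add_distrib]
    exact (sum_congr rfl fun x _ => by cases E v x <;> simp).trans hp
  have k1 := key true
  have k2 := key false
  have k3 := tot D p1
  have k4 := tot unif (biased_unif 0).total
  simp only [mul_ite, mul_one, mul_zero, unif, Fintype.card_fin, one_div_pow] at k1 k2 k3 k4
  exact abs_le.2 ⟨by linarith, by linarith⟩

end Pool.Agent.Results.MP_ee7726_lc.SmallBiasAC0
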