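import Pool.Agent.Lib.MP_ee7726_lc.SB.Core2
import Pool.Agent.Lib.MP_ee7726_lc.SB.Kernel2
import Pool.Agent.Lib.MP_ee7726_lc.SB.Two
import Pool.Agent.Lib.MP_ee7726_lc.SB.Trunc

/-! Laws whose low-degree parities have small bias fool DNF formulas. -/

namespace Pool.Agent.Results.MP_ee7726_lc.SmallBiasDNF

open Finset Pool.Agent.Lib.MP_ee7726_lc.SB

theorem result : ∃ C : ℝ, ∀ (n w d : ℕ) (ε : ℝ) (D : (Fin n → Bool) → ℝ)
    (T : Finset (Finset (Fin n) × (Fin n → Bool))),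
    1 ≤ w → 0 < ε → ε ≤ 1 → C * w * (Real.log (w + 1) ^ 2 + Real.log (1 / ε)) ≤ d →
    (∀ x, 0 ≤ D x) → ∑ x, D x = 1 →
    (∀ S : Finset (Fin n), S.Nonempty → S.card ≤ d →
      |∑ x, D x * ∏ v ∈ S, (if x v = true then (-1 : ℝ) else 1)| ≤ 1 / ((w : ℝ) + 1) ^ d) →
    |(∑ x : Fin n → Bool, if ∃ t ∈ T, ∀ v ∈ t.1, x v = t.2 v then D x else 0) -
        ∑ x : Fin n → Bool, if ∃ t ∈ T, ∀ v ∈ t.1, x v = t.2 v then (1 : ℝ) / 2 ^ n else 0| ≤
      ε * (∑ x : Fin n → Bool, if ∃ t ∈ T, ∀ v ∈ t.1, x v = t.2 v then (1 : ℝ) / 2 ^ n else 0) +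
        2 * ((T.filter fun t => w < t.1.card).card : ℝ) / 2 ^ w := by
  obtain ⟨C, hC, h⟩ := core2 kernel2 twoSet
  refine ⟨17 * C + 2, fun n w d ε D T hw h0 h1 hd p0 p1 p2 => ?_⟩
  obtain ⟨K, hK, hwK, h⟩ := h w hw ε h0 h1
  have hw' : (1 : ℝ) ≤ w := by exact_mod_cast hw
  have hL : 0 ≤ Real.log (1 / ε) := Real.log_nonneg (one_le_one_div h0 h1)
  have l2 := Real.log_two_gt_d9
  have a1 : Real.log 2 ≤ Real.log (w + 1) := Real.log_le_log (by norm_num) (by linarith)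
  have a2 : Real.log (1 / ε) ≤ w * (Real.log (w + 1) ^ 2 + Real.log (1 / ε)) := by
    nlinarith [sq_nonneg (Real.log (w + 1))]
  have a3 : 17 * K + 2 * Real.log (1 / ε) ≤ d := by nlinarith
  have a4 : 2 * K ≤ d := by
    have : (2 * K : ℝ) ≤ d := by linarith [Nat.cast_nonneg (α := ℝ) K]
    exact_mod_cast this
  have hB : Biased D (2 * K) (1 / ((w : ℝ) + 1) ^ d) :=
    ⟨p0, p1, fun S hS hc => p2 S hS (hc.trans a4)⟩
  have hs : 1 / ((w : ℝ) + 1) ^ d * (2 * (K + 1) * (8 * w) ^ K) ^ 2 * 2 ^ w * 10 ≤ ε := by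
    have k1 : K ≠ 0 := by omega
    have b0 : (2 : ℝ) ≤ w + 1 := by linarith
    have b1 : (K + 1 : ℝ) ≤ (w + 1) ^ K := by
      have : ((K + 1 : ℕ) : ℝ) ≤ (2 ^ K : ℕ) := by exact_mod_cast Nat.lt_two_pow_self
      push_cast at this
      exact this.trans (pow_le_pow_left₀ (by norm_num) b0 K)
    have b2 : (2 : ℝ) ≤ (w + 1) ^ K := b0.trans (le_self_pow₀ (by linarith) k1)
    have b3 : (8 * w : ℝ) ^ K ≤ ((w + 1) ^ K) ^ 4 := by
      rw [← pow_mul, mul_comm K, pow_mul]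
      refine pow_le_pow_left₀ (by positivity) ?_ K
      have := pow_le_pow_left₀ (by norm_num) b0 3
      rw [pow_succ]
      exact mul_le_mul (by linarith) (by linarith) (by positivity) (by positivity)
    have b4 : (2 : ℝ) ^ w ≤ (w + 1) ^ K :=
      (pow_le_pow_right₀ one_le_two hwK).trans (pow_le_pow_left₀ (by norm_num) b0 K)
    have b5 : (10 : ℝ) ≤ ((w + 1) ^ K) ^ 4 :=
      le_trans (by norm_num) (pow_le_pow_left₀ (by norm_num) b2 4)
    have b6 : (((w : ℝ) + 1) ^ K) ^ 17 ≤ ε * (w + 1) ^ d := by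
      rw [← Real.log_le_log_iff (by positivity) (by positivity),
        Real.log_mul h0.ne' (by positivity), Real.log_pow, Real.log_pow, Real.log_pow]
      rw [one_div, Real.log_inv] at a3 hL
      push_cast
      nlinarith [mul_le_mul_of_nonneg_right a3 (by linarith : 0 ≤ Real.log (w + 1)),
        mul_le_mul_of_nonneg_left a1 hL]
    rw [mul_assoc, mul_assoc, one_div, inv_mul_le_iff₀ (by positivity), mul_comm _ ε]
    refine le_trans ?_ b6
    calc _ ≤ ((w + 1 : ℝ) ^ K * (w + 1) ^ K * ((w + 1) ^ K) ^ 4) ^ 2 *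
          ((w + 1) ^ K * ((w + 1) ^ K) ^ 4) := by gcongr
      _ = _ := by ring
  have key := trunc p0 h0.le h1 (fun E hE => h _ E D _ hE hB (by positivity) hs) T
  have e : ∀ p : (Fin n → Bool) → ℝ, pr p {x | ∃ t ∈ T, ∀ v ∈ t.1, x v = t.2 v} =
      ∑ x : Fin n → Bool, if ∃ t ∈ T, ∀ v ∈ t.1, x v = t.2 v then p x else 0 := fun p =>
    sum_congr rfl fun x _ => by congr
  rw [e, e] at key
  simpa only [unif, Fintype.card_fin, one_div_pow] using key

end Pool.Agent.Results.MP_ee7726_lc.SmallBiasDNF
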