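import Mathlib
import Pool.Agent.Lib.MP_ee7726_lc.Model
import Pool.Agent.Lib.MP_ee7726_lc.SR.Final

open Pool.Agent.Lib.MP_ee7726_lc

/-- For every `t ≥ 1` a deterministic online algorithm, polynomial time per trial, whose number of
mistakes is at most `C (log n + 1)^t n^(2/((t+1)(t+2))) r^((t-1)/(t+1))` times that of any
disjunction of `r ≥ 1` variables, plus a polynomial in `n`. -/
theorem Pool.Agent.Results.MP_ee7726_lc.SparseRatio.result :
    ∀ t : ℕ, 1 ≤ t → ∃ A : OnlineAlg, A.PolyTimePerTrial ∧ ∃ (C : ℝ) (q : Polynomial ℕ),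
      ∀ (n : ℕ), 1 ≤ n → ∀ (s : List ((Fin n → Bool) × Bool)) (S : Finset (Fin n)), S.Nonempty →
        (A.mistakes s : ℝ) ≤
          C * (Real.log n + 1) ^ t * (n : ℝ) ^ (2 / (((t : ℝ) + 1) * (t + 2))) *
            (S.card : ℝ) ^ (((t : ℝ) - 1) / (t + 1)) * disjMistakes S s + (q.eval n : ℕ) :=
  SR.main
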